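import Pool.Agent.Helper61_LT.Stmts
import Pool.Agent.Helper61_LT.Tools

/-!
# LT, module INT: a lower bound for the determinant of a matrix close to an integral one
-/

set_option autoImplicit false
set_option linter.unusedSectionVars false

namespace Pool.Agent.LT.H13

open Matrix Pool.Agent.LT

theorem bd_diag {ι : Type} [Fintype ι] [DecidableEq ι] (w : ι → ℝ) (hw : ∀ i, w i ^ 2 ≤ 1) :
    Bd (Matrix.diagonal w) 1 := by
  intro x
  rw [one_pow, one_mul]
  unfold dotProduct
  refine Finset.sum_le_sum fun i _ => ?_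
  rw [Matrix.mulVec_diagonal]
  nlinarith [hw i, sq_nonneg (x i), mul_nonneg (sub_nonneg.2 (hw i)) (sq_nonneg (x i))]

theorem rank_fac {ι : Type} [Fintype ι] {k : ℕ} (A : Matrix ι ι ℝ) (B : Matrix ι (Fin k) ℝ)
    (C : Matrix (Fin k) ι ℝ) (h : A = B * C) : A.rank ≤ k := by
  rw [h]
  refine (Matrix.rank_mul_le_left _ _).trans ?_
  refine (Matrix.rank_le_card_width _).trans ?_
  simp

/-- The integral matrix that has the rows `J` of `M` and unit vectors as the other rows. -/
theorem fill {ι : Type} [Fintype ι] [DecidableEq ι] (M : Matrix ι ι ℤ) (K0 : ℝ) (hK0 : 0 ≤ K0)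
    (hM : Bd (cst M) K0) (k : ℕ) (J I : Fin k → ι) (hJ : Function.Injective J)
    (hI : Function.Injective I) (hd : (M.submatrix J I).det ≠ 0) :
    ∃ M2 : Matrix ι ι ℤ, M2.det ≠ 0 ∧ (cst M2 - cst M).rank + k ≤ Fintype.card ι ∧
      Bd (cst M2) (K0 + 1) := by
  classical
  have hc : Fintype.card ↥(Set.range J)ᶜ = Fintype.card ↥(Set.range I)ᶜ := by
    rw [Fintype.card_compl_set, Fintype.card_compl_set, Set.card_range_of_injective hJ,
      Set.card_range_of_injective hI]
  let e : ↥(Set.range J)ᶜ ≃ ↥(Set.range I)ᶜ := Fintype.equivOfCardEq hc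
  let eJ : Fin k ⊕ ↥(Set.range J)ᶜ ≃ ι :=
    ((Equiv.ofInjective J hJ).sumCongr (Equiv.refl _)).trans (Equiv.Set.sumCompl (Set.range J))
  let eI : Fin k ⊕ ↥(Set.range J)ᶜ ≃ ι :=
    ((Equiv.ofInjective I hI).sumCongr e).trans (Equiv.Set.sumCompl (Set.range I))
  have eJl : ∀ a, eJ (Sum.inl a) = J a := fun a => by simp [eJ]
  have eJr : ∀ c, eJ (Sum.inr c) = c.1 := fun c => by simp [eJ]
  have eIl : ∀ a, eI (Sum.inl a) = I a := fun a => by simp [eI]
  have eIr : ∀ c, eI (Sum.inr c) = (e c).1 := fun c => by simp [eI]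
  let F : Matrix (Fin k ⊕ ↥(Set.range J)ᶜ) (Fin k ⊕ ↥(Set.range J)ᶜ) ℤ :=
    Matrix.fromBlocks (M.submatrix J I) (M.submatrix J fun c => (e c).1) 0 1
  refine ⟨F.submatrix eJ.symm eI.symm, ?_, ?_, ?_⟩
  · have h1 : |(F.submatrix eJ.symm eI.symm).det| = |F.det| :=
      Matrix.abs_det_submatrix_equiv_equiv eJ.symm eI.symm F
    have h2 : F.det = (M.submatrix J I).det := by
      change (Matrix.fromBlocks (M.submatrix J I) (M.submatrix J fun c => (e c).1) 0 1).det = _
      rw [Matrix.det_fromBlocks_zero₂₁, Matrix.det_one, mul_one]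
    intro h3
    rw [h3, abs_zero, h2] at h1
    exact hd (abs_eq_zero.1 h1.symm)
  · have h1 : (cst (F.submatrix eJ.symm eI.symm) - cst M).rank ≤
        (Finset.univ.filter fun i => i ∉ Set.range J).card := by
      apply rk_rows
      intro i hi j
      have hi' : i ∈ Set.range J := by
        by_contra hcon
        exact hi (Finset.mem_filter.2 ⟨Finset.mem_univ _, hcon⟩)
      obtain ⟨a, rfl⟩ := hi'
      obtain ⟨p, rfl⟩ := eI.surjective j
      have h2 : eJ.symm (J a) = Sum.inl a := by rw [← eJl, Equiv.symm_apply_apply]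
      simp only [cst, Matrix.sub_apply, Matrix.map_apply, Matrix.submatrix_apply, h2,
        Equiv.symm_apply_apply]
      rcases p with p | p
      · change ((M (J a) (I p) : ℤ) : ℝ) - _ = 0
        rw [eIl, sub_self]
      · change ((M (J a) (e p).1 : ℤ) : ℝ) - _ = 0
        rw [eIr, sub_self]
    have h3 : (Finset.univ.filter fun i => i ∉ Set.range J).card + k = Fintype.card ι := by
      have h4 : (Finset.univ.filter fun i => i ∉ Set.range J).card =
          Fintype.card ↥(Set.range J)ᶜ := by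
        rw [Fintype.card_subtype]
        rfl
      rw [h4]
      have h5 := Fintype.card_congr eJ
      rw [Fintype.card_sum, Fintype.card_fin] at h5
      omega
    omega
  · have h1 : cst (F.submatrix eJ.symm eI.symm) =
        Matrix.diagonal (fun i => if i ∈ Set.range J then (1 : ℝ) else 0) * cst M +
        Matrix.diagonal (fun i => if i ∈ Set.range J then (0 : ℝ) else 1) *
          (1 : Matrix (Fin k ⊕ ↥(Set.range J)ᶜ) (Fin k ⊕ ↥(Set.range J)ᶜ) ℝ).submatrix
            eJ.symm eI.symm := by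
      ext i j
      obtain ⟨q, rfl⟩ := eJ.surjective i
      obtain ⟨p, rfl⟩ := eI.surjective j
      simp only [cst, Matrix.add_apply, Matrix.map_apply, Matrix.submatrix_apply,
        Matrix.diagonal_mul, Equiv.symm_apply_apply]
      rcases q with q | q
      · have hq : eJ (Sum.inl q) ∈ Set.range J := ⟨q, (eJl q).symm⟩
        rw [if_pos hq, if_pos hq, one_mul, zero_mul, add_zero, eJl]
        rcases p with p | p
        · rw [eIl]
          rfl
        · rw [eIr]
          rfl
      · have hq : eJ (Sum.inr q) ∉ Set.range J := by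
          rw [eJr]
          exact q.2
        rw [if_neg hq, if_neg hq, one_mul, zero_mul, zero_add]
        rw [Equiv.symm_apply_apply, Equiv.symm_apply_apply]
        rcases p with p | p
        · rw [Matrix.one_apply_ne (by simp)]
          change ((0 : ℤ) : ℝ) = 0
          simp
        · rw [Matrix.one_apply]
          change (((1 : Matrix ↥(Set.range J)ᶜ ↥(Set.range J)ᶜ ℤ) q p : ℤ) : ℝ) = _
          rw [Matrix.one_apply]
          simp only [Sum.inr.injEq]
          split_ifs <;> simp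
    rw [h1]
    have h2 : Bd (Matrix.diagonal (fun i => if i ∈ Set.range J then (1 : ℝ) else 0) * cst M)
        (1 * K0) := (bd_diag _ fun i => by split_ifs <;> norm_num).mul hM
    have h3 : Bd (Matrix.diagonal (fun i => if i ∈ Set.range J then (0 : ℝ) else 1) *
          (1 : Matrix (Fin k ⊕ ↥(Set.range J)ᶜ) (Fin k ⊕ ↥(Set.range J)ᶜ) ℝ).submatrix
            eJ.symm eI.symm) (1 * 1) :=
      (bd_diag _ fun i => by split_ifs <;> norm_num).mul
        (bd_one.submatrix eJ.symm.injective eI.symm.injective)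
    rw [one_mul] at h2 h3
    exact h2.add h3 hK0 zero_le_one

/-- INT -/
theorem int (hDET : DetStmt) (hCUR : CurStmt) : IntStmt := by
  intro ι _ _ M M' K0 K1 r hK0 hK1 hM hd hM' hr
  have hK0' : 0 ≤ K0 := zero_le_one.trans hK0
  have hK1' : 0 ≤ K1 := zero_le_one.trans hK1
  obtain ⟨k, J, I, hJ, hI, hJI, hfac⟩ := hCUR ι ι M
  obtain ⟨M2, hM2d, hM2r, hM2b⟩ := fill M K0 hK0' hM k J I hJ hI hJI
  have hu : IsUnit M' := by
    rw [Matrix.isUnit_iff_isUnit_det]
    exact isUnit_iff_ne_zero.2 hd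
  have hrk : M'.rank = Fintype.card ι := Matrix.rank_of_isUnit M' hu
  have hk : (cst M).rank ≤ k := rank_fac _ _ _ hfac
  have hk2 : M'.rank ≤ (cst M).rank + (M' - cst M).rank := rk_le_of_near _ _
  rw [rk_comm] at hk2
  have h2r : (cst M2 - M').rank ≤ 2 * r := by
    have h1 := rk_trans (cst M2) (cst M) M'
    omega
  set R : Matrix ι ι ℝ := M'⁻¹ * (cst M2 - M') with hR
  have hRr : R.rank ≤ 2 * r := (Matrix.rank_mul_le_right _ _).trans h2r
  have hinv : M'⁻¹ * M' = 1 := Matrix.nonsing_inv_mul _ (isUnit_iff_ne_zero.2 hd)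
  have hinv2 : M' * M'⁻¹ = 1 := Matrix.mul_nonsing_inv _ (isUnit_iff_ne_zero.2 hd)
  have hR2 : R = M'⁻¹ * cst M2 - 1 := by rw [hR, Matrix.mul_sub, hinv]
  have hRb : Bd R (K1 * (K0 + 1) + 1) := by
    rw [hR2]
    exact (hM'.mul hM2b).sub bd_one (by positivity) zero_le_one
  have hdet := hDET ι R (K1 * (K0 + 1) + 1) (by positivity) hRb
  have h3 : cst M2 = M' * (1 + R) := by
    rw [hR2, add_sub_cancel, ← Matrix.mul_assoc, hinv2, Matrix.one_mul]
  have h4 : |(cst M2).det| = |M'.det| * |(1 + R).det| := by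
    rw [h3, Matrix.det_mul, abs_mul]
  have h5 : (1 : ℝ) ≤ |(cst M2).det| := by
    rw [cst_det, ← Int.cast_abs]
    exact_mod_cast Int.one_le_abs hM2d
  calc (1 : ℝ) ≤ |(cst M2).det| := h5
    _ = |M'.det| * |(1 + R).det| := h4
    _ ≤ |M'.det| * (1 + (K1 * (K0 + 1) + 1)) ^ R.rank := by gcongr
    _ ≤ |M'.det| * (1 + (K1 * (K0 + 1) + 1)) ^ (2 * r) := by
        gcongr
        nlinarith [mul_nonneg hK1' (add_nonneg hK0' zero_le_one)]
    _ = |M'.det| * (2 + K1 * (K0 + 1)) ^ (2 * r) := by
        congr 2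
        ring

end Pool.Agent.LT.H13
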